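import Mathlib

/-!
# Project GS3, (E4): mean values of powers of `∑ n^{2σ-2+iu}`
-/

set_option autoImplicit false

open MeasureTheory Set Filter Topology
open scoped ComplexConjugate

namespace Pool.Agent.J4H46.GS

noncomputable section

/-- the point -/
def pt (σ u : ℝ) : ℂ := (2 - 2 * σ : ℝ) - u * Complex.I

/-- the zeta series -/
def zz (σ u : ℝ) : ℂ := LSeries 1 (pt σ u)

lemma pt_re (σ u : ℝ) : (pt σ u).re = 2 - 2 * σ := by
  simp [pt]

lemma zeta_pow (K : ℕ) (s : ℂ) (hs : 1 < s.re) :
    LSeriesSummable (fun n => ((ArithmeticFunction.zeta : ArithmeticFunction ℂ) ^ K) n) s ∧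
      LSeries (fun n => ((ArithmeticFunction.zeta : ArithmeticFunction ℂ) ^ K) n) s = (LSeries 1 s) ^ K := by
  have hz : LSeriesSummable (fun n => (ArithmeticFunction.zeta : ArithmeticFunction ℂ) n) s := by
    have h := ArithmeticFunction.LSeriesSummable_zeta_iff (s := s)
    simpa using h.2 hs
  have hz1 : LSeries (fun n => (ArithmeticFunction.zeta : ArithmeticFunction ℂ) n) s = LSeries 1 s := by
    apply LSeries_congr
    intro n hn
    simp [ArithmeticFunction.natCoe_apply, ArithmeticFunction.zeta_apply, hn]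
  induction K with
  | zero =>
    have h0 : ∀ n : ℕ, n ≠ 1 → LSeries.term (fun n => ((ArithmeticFunction.zeta : ArithmeticFunction ℂ) ^ 0) n) s n = 0 := by
      intro n hn
      rw [LSeries.term_def]
      split_ifs
      · rfl
      · simp [hn]
    constructor
    · exact summable_of_ne_finset_zero (s := {1}) (fun n hn => h0 n (by simpa using hn))
    · rw [LSeries, tsum_eq_single 1 h0]
      simp
  | succ K ih =>
    rw [pow_succ]
    refine ⟨ArithmeticFunction.LSeriesSummable_mul ih.1 hz, ?_⟩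
    rw [ArithmeticFunction.LSeries_mul' ih.1 hz, ih.2, hz1, pow_succ]

/-- the coefficients of the powers -/
def DK (σ : ℝ) (K n : ℕ) : ℂ :=
  LSeries.term (fun n => ((ArithmeticFunction.zeta : ArithmeticFunction ℂ) ^ K) n) (pt σ 0) n

lemma term_eq (σ u : ℝ) (K n : ℕ) :
    LSeries.term (fun n => ((ArithmeticFunction.zeta : ArithmeticFunction ℂ) ^ K) n) (pt σ u) n =
      DK σ K n * Complex.exp ((Real.log n * Complex.I) * u) := by
  unfold DK
  rcases Nat.eq_zero_or_pos n with rfl | hn
  · simp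
  · have hn' : (n : ℂ) ≠ 0 := by exact_mod_cast hn.ne'
    rw [LSeries.term_of_ne_zero hn.ne', LSeries.term_of_ne_zero hn.ne']
    have h1 : (n : ℂ) ^ (pt σ u) = (n : ℂ) ^ (pt σ 0) * Complex.exp (-((Real.log n * Complex.I) * u)) := by
      rw [Complex.cpow_def_of_ne_zero hn', Complex.cpow_def_of_ne_zero hn', ← Complex.exp_add]
      congr 1
      rw [Complex.natCast_log]
      unfold pt
      push_cast
      ring
    rw [h1, Complex.exp_neg]
    have h2 : (n : ℂ) ^ (pt σ 0) ≠ 0 := by
      rw [Complex.cpow_def_of_ne_zero hn']; exact Complex.exp_ne_zero _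
    field_simp [Complex.exp_ne_zero]

lemma norm_exp_log (n : ℕ) (u : ℝ) : ‖Complex.exp ((Real.log n * Complex.I) * u)‖ = 1 := by
  have : ((Real.log n : ℂ) * Complex.I) * u = ((Real.log n * u : ℝ) : ℂ) * Complex.I := by push_cast; ring
  rw [this, Complex.norm_exp_ofReal_mul_I]

lemma DK_summable (σ : ℝ) (hσ : σ < 1 / 2) (K : ℕ) : Summable (fun n => ‖DK σ K n‖) := by
  have h := (zeta_pow K (pt σ 0) (by rw [pt_re]; linarith)).1
  exact h.norm

lemma DK_one (σ : ℝ) (K : ℕ) : DK σ K 1 = 1 := by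
  unfold DK
  rw [LSeries.term_of_ne_zero one_ne_zero]
  have h : ∀ K : ℕ, ((ArithmeticFunction.zeta : ArithmeticFunction ℂ) ^ K) 1 = 1 := by
    intro K
    induction K with
    | zero => simp
    | succ K ih =>
      rw [pow_succ, ArithmeticFunction.mul_apply]
      simp [ih, ArithmeticFunction.natCoe_apply, ArithmeticFunction.zeta_apply]
  simp [h K]

lemma zz_hasSum (σ : ℝ) (hσ : σ < 1 / 2) (K : ℕ) (u : ℝ) :
    HasSum (fun n : ℕ => DK σ K n * Complex.exp ((Real.log n * Complex.I) * u)) (zz σ u ^ K) := by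
  have h := zeta_pow K (pt σ u) (by rw [pt_re]; linarith)
  have h1 := h.1.hasSum
  have h2 : ∑' n, LSeries.term (fun n => ((ArithmeticFunction.zeta : ArithmeticFunction ℂ) ^ K) n) (pt σ u) n =
      zz σ u ^ K := h.2
  rw [h2] at h1
  refine h1.congr_fun ?_ |> fun h => h
  intro n
  rw [term_eq]

lemma zz_cont (σ : ℝ) (hσ : σ < 1 / 2) : Continuous (zz σ) := by
  have h : zz σ = fun u : ℝ => ∑' n : ℕ, DK σ 1 n * Complex.exp ((Real.log n * Complex.I) * u) := by
    funext u
    have := (zz_hasSum σ hσ 1 u).tsum_eq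
    rw [this, pow_one]
  rw [h]
  apply continuous_tsum (u := fun n => ‖DK σ 1 n‖) (fun n => by fun_prop) (DK_summable σ hσ 1)
  intro n u
  rw [norm_mul, norm_exp_log, mul_one]

/-- the mean value -/
lemma mean (σ : ℝ) (hσ : σ < 1 / 2) (K : ℕ) : ∃ B : ℝ, 0 ≤ B ∧ ∀ a b : ℝ,
    ‖(∫ u in a..b, zz σ u ^ K) - ((b - a : ℝ) : ℂ)‖ ≤ B := by
  have hl2 : 0 < Real.log 2 := Real.log_pos (by norm_num)
  refine ⟨∑' n, ‖DK σ K n‖ * (2 / Real.log 2), tsum_nonneg (fun n => by positivity), fun a b => ?_⟩
  have h1 : HasSum (fun n : ℕ => ∫ u in a..b, DK σ K n * Complex.exp ((Real.log n * Complex.I) * u))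
      (∫ u in a..b, zz σ u ^ K) := by
    apply intervalIntegral.hasSum_integral_of_dominated_convergence (fun n _ => ‖DK σ K n‖)
    · intro n
      apply Continuous.aestronglyMeasurable
      fun_prop
    · intro n
      filter_upwards with u _
      rw [norm_mul, norm_exp_log, mul_one]
    · filter_upwards with u _
      exact DK_summable σ hσ K
    · exact intervalIntegrable_const
    · filter_upwards with u _
      exact zz_hasSum σ hσ K u
  have h2 : HasSum (fun n : ℕ => if n = 1 then ((b - a : ℝ) : ℂ) else 0) ((b - a : ℝ) : ℂ) :=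
    hasSum_ite_eq 1 _
  have h3 := h1.sub h2
  refine h3.norm_le_of_bounded ((DK_summable σ hσ K).mul_right _).hasSum ?_
  intro n
  by_cases hn : n = 1
  · subst hn
    simp only [Nat.cast_one, Real.log_one, Complex.ofReal_zero, zero_mul, Complex.exp_zero, mul_one,
      intervalIntegral.integral_const, DK_one, if_true]
    have : (b - a) • (1 : ℂ) - ((b - a : ℝ) : ℂ) = 0 := by simp
    rw [this, norm_zero]
    positivity
  · rw [if_neg hn, sub_zero]
    rcases Nat.eq_zero_or_pos n with rfl | hn0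
    · have : DK σ K 0 = 0 := by unfold DK; simp
      simp [this]
    · have hn2 : 2 ≤ n := by omega
      have hlog : Real.log 2 ≤ Real.log n := Real.log_le_log (by norm_num) (by exact_mod_cast hn2)
      have hlp : 0 < Real.log n := lt_of_lt_of_le hl2 hlog
      rw [intervalIntegral.integral_const_mul, norm_mul]
      apply mul_le_mul_of_nonneg_left _ (norm_nonneg _)
      have hc : (Real.log n : ℂ) * Complex.I ≠ 0 := by
        apply mul_ne_zero _ Complex.I_ne_zero
        exact_mod_cast hlp.ne'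
      rw [integral_exp_mul_complex hc, norm_div]
      have h4 : ‖(Real.log n : ℂ) * Complex.I‖ = Real.log n := by
        rw [norm_mul, Complex.norm_I, mul_one, Complex.norm_real, Real.norm_of_nonneg hlp.le]
      rw [h4]
      have h5 : ‖Complex.exp ((Real.log n * Complex.I) * b) - Complex.exp ((Real.log n * Complex.I) * a)‖ ≤ 2 := by
        refine (norm_sub_le _ _).trans ?_
        rw [norm_exp_log, norm_exp_log]; norm_num
      exact div_le_div₀ (by norm_num) h5 hl2 hlog

lemma zz_bdd (σ : ℝ) (hσ : σ < 1 / 2) : ∃ B : ℝ, 0 ≤ B ∧ ∀ u : ℝ, ‖zz σ u‖ ≤ B := by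
  refine ⟨∑' n, ‖DK σ 1 n‖, tsum_nonneg (fun n => norm_nonneg _), fun u => ?_⟩
  have h := zz_hasSum σ hσ 1 u
  rw [pow_one] at h
  refine h.norm_le_of_bounded (DK_summable σ hσ 1).hasSum ?_
  intro n
  rw [norm_mul, norm_exp_log, mul_one]

end

end Pool.Agent.J4H46.GS
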