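import Pool.Agent.J4H38.GS.Stm3
import Pool.Agent.J4H46.GS.Zm

/-!
# Project GS3, (E4)
-/

set_option autoImplicit false

open MeasureTheory Set Filter Topology
open scoped ComplexConjugate

namespace Pool.Agent.J4H46.GS

open Pool.Agent.J4H38.GS

noncomputable section

/-- continuity of `KK` on the line -/
lemma KK_cont (σ : ℝ) (hσ : 0 < σ) (m : ℤ) : Continuous (fun t : ℝ => KK m (ln σ t)) := by
  unfold KK
  have hint : IntegrableOn (fun y : ℝ => y ^ (-σ - 1)) (Ioi (1 : ℝ)) :=
    integrableOn_Ioi_rpow_of_lt (by linarith) one_pos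
  apply continuous_of_dominated (bound := fun y : ℝ => y ^ (-σ - 1))
  · intro t
    apply ContinuousOn.aestronglyMeasurable _ measurableSet_Ioi
    intro y hy
    have hy0 : (y : ℂ) ∈ Complex.slitPlane := by
      rw [Complex.ofReal_mem_slitPlane]; exact lt_trans one_pos hy
    apply ContinuousAt.continuousWithinAt
    apply ContinuousAt.mul
    · fun_prop
    · exact (Complex.continuous_ofReal.continuousAt).cpow continuousAt_const hy0
  · intro t
    filter_upwards [ae_restrict_mem measurableSet_Ioi] with y hy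
    have hy0 : 0 < y := lt_trans one_pos hy
    rw [norm_mul, Complex.norm_cpow_eq_rpow_re_of_pos hy0]
    have h1 : ‖Complex.exp (-((2 * Real.pi * m * y : ℝ) : ℂ) * Complex.I)‖ = 1 := by
      have : -((2 * Real.pi * m * y : ℝ) : ℂ) * Complex.I = ((-(2 * Real.pi * m * y) : ℝ) : ℂ) * Complex.I := by
        push_cast; ring
      rw [this, Complex.norm_exp_ofReal_mul_I]
    rw [h1, one_mul]
    have h2 : (-(ln σ t) - 1).re = -σ - 1 := by simp [ln]
    rw [h2]
  · exact hint
  · filter_upwards [ae_restrict_mem measurableSet_Ioi] with y hy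
    have hy0 : (y : ℂ) ≠ 0 := by exact_mod_cast (lt_trans one_pos hy).ne'
    apply Continuous.mul continuous_const
    apply Continuous.const_cpow _ (Or.inl hy0)
    unfold ln
    fun_prop

lemma ln_sub_ne (σ t : ℝ) (hσ : σ < 1 / 2) : ln σ t - 1 ≠ 0 := by
  intro h
  have := congrArg Complex.re h
  simp [ln] at this
  linarith

lemma cc_cont (σ : ℝ) (hσ : 0 < σ) (hσ' : σ < 1 / 2) (m : ℤ) : Continuous (fun t : ℝ => cc m (ln σ t)) := by
  have hl : Continuous (fun t : ℝ => ln σ t) := by unfold ln; fun_prop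
  unfold cc
  by_cases hm : m = 0
  · simp only [hm, if_true]
    exact continuous_const.div (hl.sub continuous_const) (fun t => ln_sub_ne σ t hσ')
  · simp only [hm, if_false]
    exact (continuous_const.sub (hl.mul (KK_cont σ hσ m))).div_const _

/-- the weights -/
def W (σ : ℝ) (m : ℤ) : ℝ := if m = 0 then 1 else |(m : ℝ)| ^ (σ - 1)

lemma W_nonneg (σ : ℝ) (m : ℤ) : 0 ≤ W σ m := by
  unfold W; split_ifs <;> positivity

lemma W_summable (σ : ℝ) (hσ' : σ < 1 / 2) : Summable (fun m : ℤ => W σ m * W σ m) := by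
  have h : Summable (fun m : ℤ => |(m : ℝ)| ^ (2 * σ - 2)) := by
    apply Summable.of_nat_of_neg
    · have := Real.summable_nat_rpow.2 (by linarith : 2 * σ - 2 < -1)
      simpa using this
    · have := Real.summable_nat_rpow.2 (by linarith : 2 * σ - 2 < -1)
      simpa using this
  have h2 : Summable (fun m : ℤ => |(m : ℝ)| ^ (2 * σ - 2) + if m = 0 then (1 : ℝ) else 0) :=
    h.add (summable_of_ne_finset_zero (s := {0}) (fun m hm => if_neg (by simpa using hm)))
  refine Summable.of_nonneg_of_le (fun m => mul_nonneg (W_nonneg _ _) (W_nonneg _ _)) (fun m => ?_) h2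
  unfold W
  by_cases hm : m = 0
  · simp only [hm, if_true, mul_one]
    have : 0 ≤ |((0 : ℤ) : ℝ)| ^ (2 * σ - 2) := by positivity
    linarith
  · simp only [hm, if_false, add_zero]
    have hp : 0 < |(m : ℝ)| := abs_pos.2 (by exact_mod_cast hm)
    rw [← Real.rpow_add hp]
    apply le_of_eq; congr 1; ring

/-- the model -/
def bb (σ : ℝ) (m : ℤ) (t : ℝ) : ℂ :=
  if m < 0 then ((m.natAbs : ℕ) : ℂ) ^ ((σ - 1 : ℂ) + t * Complex.I) else 0

lemma bb_norm (σ : ℝ) (m : ℤ) (t : ℝ) : ‖bb σ m t‖ ≤ W σ m := by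
  unfold bb W
  by_cases hm : m < 0
  · have hm0 : m ≠ 0 := hm.ne
    simp only [hm, if_true, hm0, if_false]
    have hp : 0 < m.natAbs := Int.natAbs_pos.2 hm0
    rw [Complex.norm_natCast_cpow_of_pos hp]
    have h1 : ((σ - 1 : ℂ) + t * Complex.I).re = σ - 1 := by simp
    rw [h1]
    have h2 : ((m.natAbs : ℕ) : ℝ) = |(m : ℝ)| := by
      rw [Nat.cast_natAbs]; push_cast; rfl
    rw [h2]
  · simp only [hm, if_false, norm_zero]
    split_ifs <;> positivity

lemma bb_hasSum (σ : ℝ) (hσ' : σ < 1 / 2) (t t' : ℝ) :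
    HasSum (fun m : ℤ => bb σ m t * conj (bb σ m t')) (zz σ (t - t')) := by
  have hinj : Function.Injective (fun n : ℕ => -(n : ℤ)) := by
    intro a b h; simpa using h
  rw [← hinj.hasSum_iff]
  · have h := zz_hasSum σ hσ' 1 (t - t')
    rw [pow_one] at h
    refine h.congr_fun ?_ |> fun h => h
    intro n
    rw [← term_eq]
    simp only [Function.comp]
    rcases Nat.eq_zero_or_pos n with rfl | hn
    · simp [bb]
    · have hneg : (-(n : ℤ)) < 0 := by simpa using hn
      have hn' : (n : ℂ) ≠ 0 := by exact_mod_cast hn.ne'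
      unfold bb
      simp only [hneg, if_true, Int.natAbs_neg, Int.natAbs_natCast]
      rw [LSeries.term_of_ne_zero hn.ne']
      have h1 : ((ArithmeticFunction.zeta : ArithmeticFunction ℂ) ^ 1) n = 1 := by
        simp [ArithmeticFunction.natCoe_apply, ArithmeticFunction.zeta_apply, hn.ne']
      rw [h1, Complex.cpow_def_of_ne_zero hn', Complex.cpow_def_of_ne_zero hn', Complex.cpow_def_of_ne_zero hn',
        ← Complex.exp_conj, ← Complex.exp_add, one_div, ← Complex.exp_neg]
      congr 1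
      rw [← Complex.natCast_log]
      simp only [map_mul, map_add, map_sub, Complex.conj_ofReal, map_one, Complex.conj_I]
      unfold pt
      push_cast
      ring
  · intro m hm
    have h1 : ¬ m < 0 := by
      intro h
      apply hm
      exact ⟨m.natAbs, by simp only; omega⟩
    simp [bb, h1]

/-- the normalised coefficients, with the argument cut below -/
def aa (σ t₀ : ℝ) (m : ℤ) (t : ℝ) : ℂ := rr σ m (max t t₀)

/-- the inner products, as a sum -/
def GG (σ t₀ : ℝ) (t t' : ℝ) : ℂ := ∑' m : ℤ, aa σ t₀ m t * conj (aa σ t₀ m t')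

theorem t_E4 : S_E2 → S_E3 → S_E4 := by
  intro hE2 hE3 σ K hσ hσ'
  obtain ⟨h2i, h2ii, C, t₀, hC, ht₀, hne, hbd⟩ := hE2 σ hσ hσ'
  have aa_cont : ∀ m : ℤ, Continuous (aa σ t₀ m) := by
    intro m
    have hm : Continuous (fun t : ℝ => max t t₀) := continuous_id.max continuous_const
    exact ((cc_cont σ hσ hσ' m).comp hm).div ((cc_cont σ hσ hσ' (-1)).comp hm)
      (fun t => hne _ (le_max_right _ _))
  have aa_norm : ∀ (m : ℤ) (t : ℝ), ‖aa σ t₀ m t‖ ≤ C * W σ m := fun m t => hbd m _ (le_max_right _ _)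
  have hWs := W_summable σ hσ'
  have bound1 : ∀ (m : ℤ) (t t' : ℝ), ‖aa σ t₀ m t * conj (aa σ t₀ m t')‖ ≤ C ^ 2 * (W σ m * W σ m) := by
    intro m t t'
    rw [norm_mul, RCLike.norm_conj]
    calc ‖aa σ t₀ m t‖ * ‖aa σ t₀ m t'‖ ≤ (C * W σ m) * (C * W σ m) :=
          mul_le_mul (aa_norm m t) (aa_norm m t') (norm_nonneg _) (mul_nonneg hC (W_nonneg _ _))
      _ = _ := by ring
  have sumGG : ∀ t t' : ℝ, HasSum (fun m : ℤ => aa σ t₀ m t * conj (aa σ t₀ m t')) (GG σ t₀ t t') :=
    fun t t' => (Summable.of_norm_bounded (hWs.mul_left _) (fun m => bound1 m t t')).hasSum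
  have GG_cont : Continuous (fun p : ℝ × ℝ => GG σ t₀ p.1 p.2) := by
    have hc : ∀ m : ℤ, Continuous (fun p : ℝ × ℝ => aa σ t₀ m p.1 * conj (aa σ t₀ m p.2)) := by
      intro m
      exact ((aa_cont m).comp continuous_fst).mul
        (Complex.continuous_conj.comp ((aa_cont m).comp continuous_snd))
    exact continuous_tsum (f := fun (m : ℤ) (p : ℝ × ℝ) => aa σ t₀ m p.1 * conj (aa σ t₀ m p.2))
      (u := fun m : ℤ => C ^ 2 * (W σ m * W σ m)) hc (hWs.mul_left (C ^ 2))
      (fun m p => bound1 m p.1 p.2)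
  have GG_bdd : ∀ t t' : ℝ, ‖GG σ t₀ t t'‖ ≤ ∑' m : ℤ, C ^ 2 * (W σ m * W σ m) :=
    fun t t' => (sumGG t t').norm_le_of_bounded (hWs.mul_left _).hasSum (fun m => bound1 m t t')
  have SS_eq : ∀ t t' : ℝ, t₀ ≤ t → t₀ ≤ t' → SS σ t t' = GG σ t₀ t t' := by
    intro t t' h h'
    have h3 := hE3 (ln σ t) (ln σ t') (by simpa [ln] using hσ) (by simpa [ln] using hσ)
    have h4 := h3.div_const (cc (-1) (ln σ t) * conj (cc (-1) (ln σ t')))
    have h5 : HasSum (fun m : ℤ => aa σ t₀ m t * conj (aa σ t₀ m t')) (SS σ t t') := by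
      unfold SS
      refine h4.congr_fun ?_ |> fun h => h
      intro m
      simp only [aa, rr, max_eq_left h, max_eq_left h', map_div₀]
      rw [div_mul_div_comm]
    exact h5.unique (sumGG t t')
  have diff0 : ∀ m : ℤ, Tendsto (fun t : ℝ => aa σ t₀ m t - bb σ m t) atTop (𝓝 0) := by
    intro m
    have hev : ∀ᶠ t : ℝ in atTop, max t t₀ = t := by
      filter_upwards [eventually_ge_atTop t₀] with t ht
      exact max_eq_left ht
    by_cases hm : m < 0
    · have hn : 1 ≤ m.natAbs := Int.natAbs_pos.2 hm.ne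
      have hmn : -((m.natAbs : ℕ) : ℤ) = m := by omega
      have h := h2i m.natAbs hn
      rw [hmn] at h
      refine h.congr' ?_
      filter_upwards [hev] with t ht
      simp only [aa, bb, hm, if_true, ht]
    · have h := h2ii m (by omega)
      refine h.congr' ?_
      filter_upwards [hev] with t ht
      simp only [aa, bb, hm, if_false, ht, sub_zero]
  have T1 : Tendsto (fun p : ℝ × ℝ => GG σ t₀ p.1 p.2 - zz σ (p.1 - p.2)) (atTop ×ˢ atTop) (𝓝 0) := by
    have he : (fun p : ℝ × ℝ => GG σ t₀ p.1 p.2 - zz σ (p.1 - p.2)) =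
        fun p : ℝ × ℝ => ∑' m : ℤ, (aa σ t₀ m p.1 * conj (aa σ t₀ m p.2) - bb σ m p.1 * conj (bb σ m p.2)) := by
      funext p
      exact ((sumGG p.1 p.2).sub (bb_hasSum σ hσ' p.1 p.2)).tsum_eq.symm
    rw [he]
    have h0 : (0 : ℂ) = ∑' _ : ℤ, (0 : ℂ) := by simp
    rw [h0]
    apply tendsto_tsum_of_dominated_convergence (bound := fun m => (C ^ 2 + 1) * (W σ m * W σ m)) (hWs.mul_left _)
    · intro m
      have h1 : Tendsto (fun p : ℝ × ℝ => ‖aa σ t₀ m p.1 - bb σ m p.1‖ * (C * W σ m) +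
          W σ m * ‖aa σ t₀ m p.2 - bb σ m p.2‖) (atTop ×ˢ atTop) (𝓝 0) := by
        have ha := ((diff0 m).comp (tendsto_fst (f := (atTop : Filter ℝ)) (g := (atTop : Filter ℝ)))).norm
        have hb := ((diff0 m).comp (tendsto_snd (f := (atTop : Filter ℝ)) (g := (atTop : Filter ℝ)))).norm
        have := (ha.mul_const (C * W σ m)).add (hb.const_mul (W σ m))
        simpa using this
      apply squeeze_zero_norm (fun p => ?_) h1
      have he : aa σ t₀ m p.1 * conj (aa σ t₀ m p.2) - bb σ m p.1 * conj (bb σ m p.2) =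
          (aa σ t₀ m p.1 - bb σ m p.1) * conj (aa σ t₀ m p.2) +
            bb σ m p.1 * conj (aa σ t₀ m p.2 - bb σ m p.2) := by
        rw [map_sub]; ring
      rw [he]
      refine (norm_add_le _ _).trans ?_
      rw [norm_mul, norm_mul, RCLike.norm_conj, RCLike.norm_conj]
      exact add_le_add (mul_le_mul_of_nonneg_left (aa_norm m _) (norm_nonneg _))
        (mul_le_mul_of_nonneg_right (bb_norm σ m _) (norm_nonneg _))
    · filter_upwards with p m
      refine (norm_sub_le _ _).trans ?_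
      have h1 := bound1 m p.1 p.2
      have h2 : ‖bb σ m p.1 * conj (bb σ m p.2)‖ ≤ W σ m * W σ m := by
        rw [norm_mul, RCLike.norm_conj]
        exact mul_le_mul (bb_norm σ m _) (bb_norm σ m _) (norm_nonneg _) (W_nonneg _ _)
      linarith
  obtain ⟨Bz, hBz, hzb⟩ := zz_bdd σ hσ'
  set B1 : ℝ := ∑' m : ℤ, C ^ 2 * (W σ m * W σ m) with hB1
  have hB10 : 0 ≤ B1 := tsum_nonneg (fun m => mul_nonneg (sq_nonneg _) (mul_nonneg (W_nonneg _ _) (W_nonneg _ _)))
  have T2 : ∀ K : ℕ, Tendsto (fun p : ℝ × ℝ => GG σ t₀ p.1 p.2 ^ K - zz σ (p.1 - p.2) ^ K) (atTop ×ˢ atTop) (𝓝 0) := by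
    intro K
    induction K with
    | zero => simp
    | succ K ih =>
      have h1 : Tendsto (fun p : ℝ × ℝ => B1 ^ K * ‖GG σ t₀ p.1 p.2 - zz σ (p.1 - p.2)‖ +
          ‖GG σ t₀ p.1 p.2 ^ K - zz σ (p.1 - p.2) ^ K‖ * Bz) (atTop ×ˢ atTop) (𝓝 0) := by
        have := (T1.norm.const_mul (B1 ^ K)).add (ih.norm.mul_const Bz)
        simpa using this
      apply squeeze_zero_norm (fun p => ?_) h1
      have he : GG σ t₀ p.1 p.2 ^ (K + 1) - zz σ (p.1 - p.2) ^ (K + 1) =
          GG σ t₀ p.1 p.2 ^ K * (GG σ t₀ p.1 p.2 - zz σ (p.1 - p.2)) +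
            (GG σ t₀ p.1 p.2 ^ K - zz σ (p.1 - p.2) ^ K) * zz σ (p.1 - p.2) := by ring
      rw [he]
      refine (norm_add_le _ _).trans ?_
      rw [norm_mul, norm_mul, norm_pow]
      exact add_le_add (mul_le_mul_of_nonneg_right (pow_le_pow_left₀ (norm_nonneg _) (GG_bdd _ _) _) (norm_nonneg _))
        (mul_le_mul_of_nonneg_left (hzb _) (norm_nonneg _))
  obtain ⟨B, hB, hmean⟩ := mean σ hσ' K
  rw [Metric.tendsto_atTop]
  intro ε hε
  have T3 := T2 K
  rw [Metric.tendsto_nhds] at T3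
  have T4 := T3 (ε / 2) (by positivity)
  rw [prod_atTop_atTop_eq, eventually_atTop_prod_self'] at T4
  obtain ⟨R, hR⟩ := T4
  refine ⟨max (max R t₀) (2 * (B + 1) / ε + 1), fun T hT => ?_⟩
  have hTR : R ≤ T := (le_max_left _ _).trans ((le_max_left _ _).trans hT)
  have hTt : t₀ ≤ T := (le_max_right _ _).trans ((le_max_left _ _).trans hT)
  have hTB : 2 * (B + 1) / ε + 1 ≤ T := (le_max_right _ _).trans hT
  have hT1 : 1 ≤ T := ht₀.trans hTt
  have hT0 : 0 < T := by linarith
  have hT2 : T ≤ 2 * T := by linarith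
  -- replace SS by GG
  have e1 : (∫ t in T..(2 * T), ∫ t' in T..(2 * T), SS σ t t' ^ K) =
      ∫ t in T..(2 * T), ∫ t' in T..(2 * T), GG σ t₀ t t' ^ K := by
    apply intervalIntegral.integral_congr
    intro t ht
    rw [uIcc_of_le hT2] at ht
    apply intervalIntegral.integral_congr
    intro t' ht'
    rw [uIcc_of_le hT2] at ht'
    simp only
    rw [SS_eq t t' (hTt.trans ht.1) (hTt.trans ht'.1)]
  rw [e1]
  set J : ℝ → ℂ := fun t => ∫ t' in T..(2 * T), GG σ t₀ t t' ^ K with hJ
  have hJc : Continuous J := by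
    apply intervalIntegral.continuous_parametric_intervalIntegral_of_continuous'
    exact GG_cont.pow K
  have inner : ∀ t : ℝ, T ≤ t → ‖J t - (T : ℂ)‖ ≤ ε / 2 * T + B := by
    intro t ht
    have c1 : Continuous (fun t' : ℝ => GG σ t₀ t t' ^ K) :=
      (GG_cont.comp (continuous_const.prodMk continuous_id)).pow K
    have c2 : Continuous (fun t' : ℝ => zz σ (t - t') ^ K) :=
      ((zz_cont σ hσ').comp (continuous_const.sub continuous_id)).pow K
    have h1 : J t - (T : ℂ) = (∫ t' in T..(2 * T), (GG σ t₀ t t' ^ K - zz σ (t - t') ^ K)) +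
        ((∫ t' in T..(2 * T), zz σ (t - t') ^ K) - (T : ℂ)) := by
      rw [intervalIntegral.integral_sub (c1.intervalIntegrable _ _) (c2.intervalIntegrable _ _)]
      ring
    rw [h1]
    refine (norm_add_le _ _).trans (add_le_add ?_ ?_)
    · have h2 := intervalIntegral.norm_integral_le_of_norm_le_const (a := T) (b := 2 * T) (C := ε / 2)
        (f := fun t' => GG σ t₀ t t' ^ K - zz σ (t - t') ^ K) (by
          intro t' ht'
          rw [uIoc_of_le hT2] at ht'
          have h3 := hR t (hTR.trans ht) t' (hTR.trans ht'.1.le)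
          rw [dist_zero_right] at h3
          exact h3.le)
      refine h2.trans (le_of_eq ?_)
      rw [abs_of_nonneg (by linarith)]; ring
    · have h2 := intervalIntegral.integral_comp_sub_left (a := T) (b := 2 * T) (fun u => zz σ u ^ K) t
      rw [h2]
      have h3 := hmean (t - 2 * T) (t - T)
      have h4 : (((t - T) - (t - 2 * T) : ℝ) : ℂ) = (T : ℂ) := by push_cast; ring
      rw [h4] at h3
      exact h3
  have outer : ‖(∫ t in T..(2 * T), J t) - (T : ℂ) ^ 2‖ ≤ (ε / 2 * T + B) * T := by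
    have h1 : (∫ t in T..(2 * T), J t) - (T : ℂ) ^ 2 = ∫ t in T..(2 * T), (J t - (T : ℂ)) := by
      rw [intervalIntegral.integral_sub (hJc.intervalIntegrable _ _) intervalIntegrable_const,
        intervalIntegral.integral_const]
      congr 1
      have : (2 * T - T) • (T : ℂ) = (T : ℂ) ^ 2 := by
        rw [Complex.real_smul]; push_cast; ring
      rw [this]
    rw [h1]
    have h2 := intervalIntegral.norm_integral_le_of_norm_le_const (a := T) (b := 2 * T) (C := ε / 2 * T + B)
      (f := fun t => J t - (T : ℂ)) (by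
        intro t ht
        rw [uIoc_of_le hT2] at ht
        exact inner t ht.1.le)
    refine h2.trans (le_of_eq ?_)
    rw [abs_of_nonneg (by linarith)]; ring
  rw [dist_eq_norm]
  have hTc : (T : ℂ) ≠ 0 := by exact_mod_cast hT0.ne'
  have e2 : (1 / T ^ 2 : ℂ) * (∫ t in T..(2 * T), J t) - 1 = (1 / (T : ℂ) ^ 2) * ((∫ t in T..(2 * T), J t) - (T : ℂ) ^ 2) := by
    field_simp
  rw [e2, norm_mul]
  have e3 : ‖1 / (T : ℂ) ^ 2‖ = 1 / T ^ 2 := by
    rw [norm_div, norm_one, norm_pow, Complex.norm_real, Real.norm_of_nonneg hT0.le]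
  rw [e3]
  calc 1 / T ^ 2 * ‖(∫ t in T..(2 * T), J t) - (T : ℂ) ^ 2‖ ≤ 1 / T ^ 2 * ((ε / 2 * T + B) * T) := by
        apply mul_le_mul_of_nonneg_left outer; positivity
    _ = ε / 2 + B / T := by field_simp
    _ < ε := by
        have h5 : B / T < ε / 2 := by
          rw [div_lt_iff₀ hT0]
          have h6 : 2 * (B + 1) / ε < T := by linarith
          rw [div_lt_iff₀ hε] at h6
          nlinarith
        linarith

end

end Pool.Agent.J4H46.GS
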